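import Pool.Agent.Lib_MP_27c196_co.S.C7
import Pool.Agent.Lib_MP_27c196_co.R.P11
import Pool.Agent.Lib_MP_27c196_co.E.D2

/-! H24, assembly: from `Lab` to `RData`, and `side_large` -/

set_option linter.unusedVariables false

noncomputable section

namespace H24

open Finset

open Classical in
/-- displacement of the labelled points -/
def uu (L : ℝ) (n : ℕ) (Z : Finset (Fin 3 → ℕ)) (Y : (Fin 3 → ℕ) → ℂ) : (Fin 3 → ℕ) → Fin 3 → ℝ :=
  fun l i => if l ∈ Lam (n + 2) ∧ l ∉ Z then H L i (Y l) - l i + ((n : ℝ) + 2 - L) / 3 else 0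

/-- squared length of an edge through the displacement -/
private lemma F1a_q_add (i : Fin 3) (d : Fin 3 → ℝ) (P Q : Fin 3 → ℕ) (c : Fin 3 → ℕ) (hP : P = c + s (i + 1))
    (hQ : Q = c + s (i + 2)) : q (fun t => d t + ((P t : ℝ) - Q t)) = g i d + q d + 1 := by
  subst hP hQ
  fin_cases i <;> simp [q, g, s, Pi.single_apply] <;> ring

private lemma F1a_q_dir (L : ℝ) (i : Fin 3) (z : ℂ) (P Q : Fin 3 → ℕ) (c : Fin 3 → ℕ) (hP : P = c + s (i + 1))
    (hQ : Q = c + s (i + 2)) :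
    q (fun t => (H L t z - H L t 0) - ((P t : ℝ) - Q t)) = ‖z - dirv i‖ ^ 2 := by
  have h0 : ∀ t, H L t (dirv i) - H L t 0 = (P t : ℝ) - Q t := by
    subst hP hQ
    have a := H_dir_self L i
    have b := H_dir_add1 L i
    have c' := H_dir_add2 L i
    intro t
    fin_cases i <;> fin_cases t <;> simp [s, Pi.single_apply] at a b c' ⊢ <;> linarith
  rw [normSq_eq_q L]
  congr 1
  funext t
  rw [← h0 t]
  ring

private lemma F1a_ne (i : Fin 3) (c : Fin 3 → ℕ) : c + s (i + 1) ≠ c + s (i + 2) := by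
  intro h
  have h1 := congrFun h (i + 1)
  fin_cases i <;> simp [s, Pi.single_apply] at h1

private lemma F1a_mem {n : ℕ} {c : Fin 3 → ℕ} (hc : c ∈ Lam (n + 1)) (i : Fin 3) : c + s i ∈ Lam (n + 2) := by
  rw [mem_Lam] at hc ⊢
  fin_cases i <;> simp [s, Pi.single_apply] <;> omega

private lemma F1a_dirv_norm (i : Fin 3) : ‖dirv i‖ = 1 := by
  have h3 := sqrt3_sq
  have h1 : ‖dirv i‖ ^ 2 = 1 := by
    rw [← Complex.normSq_eq_norm_sq, Complex.normSq_apply]
    fin_cases i <;> simp [dirv] <;> nlinarith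
  have h2 : 0 ≤ ‖dirv i‖ := norm_nonneg _
  nlinarith

private lemma F1a_uu {L : ℝ} {n : ℕ} {Z : Finset (Fin 3 → ℕ)} {Y : (Fin 3 → ℕ) → ℂ} {l : Fin 3 → ℕ}
    (hl : l ∈ Lam (n + 2)) (hZ : l ∉ Z) (i : Fin 3) :
    uu L n Z Y l i = H L i (Y l) - l i + ((n : ℝ) + 2 - L) / 3 := by
  unfold uu
  rw [if_pos ⟨hl, hZ⟩]

private lemma F1a_ed {L : ℝ} {n : ℕ} {Z : Finset (Fin 3 → ℕ)} {Y : (Fin 3 → ℕ) → ℂ} {c : Fin 3 → ℕ} {i : Fin 3}
    (hc : c ∈ Lam (n + 1)) (h1 : c + s (i + 1) ∉ Z) (h2 : c + s (i + 2) ∉ Z) :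
    ed (uu L n Z Y) i c = fun t => (H L t (Y (c + s (i + 1))) - H L t (Y (c + s (i + 2)))) -
      (((c + s (i + 1)) t : ℕ) - ((c + s (i + 2)) t : ℕ) : ℝ) := by
  funext t
  unfold ed
  rw [F1a_uu (F1a_mem hc _) h1, F1a_uu (F1a_mem hc _) h2]
  ring

private lemma F1a_sg {L : ℝ} {n : ℕ} {Z : Finset (Fin 3 → ℕ)} {Y : (Fin 3 → ℕ) → ℂ} {c : Fin 3 → ℕ} {i : Fin 3}
    (hc : c ∈ Lam (n + 1)) (h1 : c + s (i + 1) ∉ Z) (h2 : c + s (i + 2) ∉ Z) :
    sg (uu L n Z Y) i c = ‖Y (c + s (i + 1)) - Y (c + s (i + 2))‖ ^ 2 - 1 := by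
  have h := F1a_q_add i (ed (uu L n Z Y) i c) _ _ c rfl rfl
  unfold sg
  rw [normSq_eq_q L]
  have e : (fun i_1 => H L i_1 (Y (c + s (i + 1))) - H L i_1 (Y (c + s (i + 2)))) =
      fun t => ed (uu L n Z Y) i c t + (((c + s (i + 1)) t : ℕ) - ((c + s (i + 2)) t : ℕ) : ℝ) := by
    funext t
    rw [F1a_ed hc h1 h2]
    ring
  rw [e, h]
  ring

private lemma F1a_small {L : ℝ} {n : ℕ} {Z : Finset (Fin 3 → ℕ)} {Y : (Fin 3 → ℕ) → ℂ} {c : Fin 3 → ℕ} {i : Fin 3}
    (hc : c ∈ Lam (n + 1)) (h1 : c + s (i + 1) ∉ Z) (h2 : c + s (i + 2) ∉ Z) :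
    q (ed (uu L n Z Y) i c) = ‖Y (c + s (i + 1)) - Y (c + s (i + 2)) - dirv i‖ ^ 2 := by
  rw [F1a_ed hc h1 h2, ← F1a_q_dir L i _ _ _ c rfl rfl]
  congr 1
  funext t
  rw [H_sub]

private lemma F1a_card (n : ℕ) (i : Fin 3) : ((Lam (n + 2)).filter (fun l => l i = 0)).card ≤ n + 3 := by
  have h : ((Lam (n + 2)).filter (fun l => l i = 0)).card ≤ (Finset.range (n + 3)).card := by
    apply Finset.card_le_card_of_injOn (fun l => l (i + 1))
    · intro l hl
      rw [Finset.mem_coe, Finset.mem_filter, mem_Lam] at hl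
      rw [Finset.mem_coe, Finset.mem_range]
      obtain ⟨h1, h2⟩ := hl
      fin_cases i <;> simp at h2 ⊢ <;> omega
    · intro l hl l' hl' h
      rw [Finset.mem_coe, Finset.mem_filter, mem_Lam] at hl hl'
      obtain ⟨h1, h2⟩ := hl
      obtain ⟨h1', h2'⟩ := hl'
      funext t
      fin_cases i <;> fin_cases t <;> simp at h h2 h2' ⊢ <;> omega
  rwa [Finset.card_range] at h

/-- sum of errors over labels is at most `E0` -/
private lemma F1a_sum_err {L E0 g1 R0 : ℝ} {X : Finset ℂ} {err : ℂ → ℝ} (hS : SData L E0 g1 R0 X err) {n : ℕ}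
    {Z : Finset (Fin 3 → ℕ)} {Y : (Fin 3 → ℕ) → ℂ} (hLab : Lab L X err n Z Y) (T : Finset (Fin 3 → ℕ))
    (f : (Fin 3 → ℕ) → (Fin 3 → ℕ)) (hf : ∀ c ∈ T, f c ∈ Lam (n + 2) ∧ f c ∉ Z)
    (hinj : ∀ c ∈ T, ∀ c' ∈ T, f c = f c' → c = c') : ∑ c ∈ T, err (Y (f c)) ≤ E0 := by
  classical
  refine le_trans ?_ hS.errsum
  have h1 : ∑ c ∈ T, err (Y (f c)) = ∑ p ∈ T.image (fun c => Y (f c)), err p := by
    rw [Finset.sum_image]
    intro c hc c' hc' h
    exact hinj c hc c' hc' (hLab.inj _ (hf c hc).1 _ (hf c' hc').1 (hf c hc).2 (hf c' hc').2 h)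
  rw [h1]
  apply Finset.sum_le_sum_of_subset_of_nonneg
  · intro p hp
    obtain ⟨c, hc, rfl⟩ := Finset.mem_image.mp hp
    exact hLab.mem _ (hf c hc).1 (hf c hc).2
  · intro p _ _
    exact hS.errpos p

/-- For an edge with both ends `P = c + s (i+1)`, `Q = c + s (i+2)` outside `Z`: `ed (uu ..) i c` is the vector of the heights differences of `Y P - Y Q - dirv i`
(`H_dir_self`, `H_dir_add1`, `H_dir_add2`, `H_sub`), so `q (ed ..) = ‖Y P - Y Q - dirv i‖² ≤ 1/400` and `sg = ‖Y P - Y Q‖² - 1` (`normSq_eq_q`), which is `≥ 0` (`Y P ≠ Y Q` in `X`) and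
`≤ 2.05 err (Y P)` (length `≤ 1.05`). Sum over `c` of `err (Y (c + s (i+1)))` is `≤ E0` (`Y` is injective off `Z`). Walls: `u l i = H L i (Y l) + δ/3 ≤ err (Y l) + δ/3`, at most `n + 3` labels on each wall. -/
theorem rdata_of_lab {L E0 g1 R0 C : ℝ} {X : Finset ℂ} {err : ℂ → ℝ} (hS : SData L E0 g1 R0 X err) {n : ℕ}
    {Z : Finset (Fin 3 → ℕ)} {Y : (Fin 3 → ℕ) → ℂ} (hLab : Lab L X err n Z Y) (hL : L ≤ n + 2)
    (hC : ((n : ℝ) + 3) * ((n : ℝ) + 2 - L) ≤ C) :
    RData n Z (uu L n Z Y) ((n : ℝ) + 2 - L) (10 * E0 + C) := by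
  have hE0 : 0 ≤ E0 := le_trans (Finset.sum_nonneg fun p _ => hS.errpos p) hS.errsum
  have hδ : 0 ≤ (n : ℝ) + 2 - L := by linarith
  have hn : (0 : ℝ) ≤ n := by positivity
  have hC0 : 0 ≤ C := le_trans (mul_nonneg (by linarith) hδ) hC
  refine ⟨?_, hLab.corner, hLab.sub, hδ, ?_, ?_, ?_, ?_, ?_⟩
  · intro l
    by_cases h : l ∈ Lam (n + 2) ∧ l ∉ Z
    · rw [F1a_uu h.1 h.2, F1a_uu h.1 h.2, F1a_uu h.1 h.2]
      have h1 := H_sum L (Y l)
      have h2 : ((l 0 : ℝ) + l 1 + l 2) = n + 2 := by exact_mod_cast mem_Lam.mp h.1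
      linarith
    · unfold uu
      rw [if_neg h, if_neg h, if_neg h]
      norm_num
  · intro i l hl hZ hi
    rw [F1a_uu hl hZ, hi]
    have := hS.inT _ (hLab.mem l hl hZ) i
    push_cast
    linarith
  · intro i c hc h1 h2
    rw [F1a_sg hc h1 h2]
    have h3 : Y (c + s (i + 1)) ≠ Y (c + s (i + 2)) := fun h =>
      F1a_ne i c (hLab.inj _ (F1a_mem hc _) _ (F1a_mem hc _) h1 h2 h)
    have h4 := hS.sep _ (hLab.mem _ (F1a_mem hc _) h1) _ (hLab.mem _ (F1a_mem hc _) h2) h3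
    nlinarith
  · intro i c hc h1 h2
    rw [F1a_small hc h1 h2]
    have h3 := (hLab.edge i c hc h1 h2).1
    have h4 := norm_nonneg (Y (c + s (i + 1)) - Y (c + s (i + 2)) - dirv i)
    nlinarith
  · have key : ∀ i : Fin 3, ∑ c ∈ (Lam (n + 1)).filter (fun c => c + s (i + 1) ∉ Z ∧ c + s (i + 2) ∉ Z),
        sg (uu L n Z Y) i c ≤ 2.05 * E0 := by
      intro i
      have h1 : ∑ c ∈ (Lam (n + 1)).filter (fun c => c + s (i + 1) ∉ Z ∧ c + s (i + 2) ∉ Z),
          sg (uu L n Z Y) i c ≤ ∑ c ∈ (Lam (n + 1)).filter (fun c => c + s (i + 1) ∉ Z ∧ c + s (i + 2) ∉ Z),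
          2.05 * err (Y (c + s (i + 1))) := by
        apply Finset.sum_le_sum
        intro c hc
        rw [Finset.mem_filter] at hc
        obtain ⟨hc, h1, h2⟩ := hc
        rw [F1a_sg hc h1 h2]
        obtain ⟨h3, h4⟩ := hLab.edge i c hc h1 h2
        have h5 : ‖Y (c + s (i + 1)) - Y (c + s (i + 2))‖ ≤ 1.05 := by
          have h6 := norm_add_le (Y (c + s (i + 1)) - Y (c + s (i + 2)) - dirv i) (dirv i)
          rw [sub_add_cancel, F1a_dirv_norm] at h6
          linarith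
        have h7 := norm_nonneg (Y (c + s (i + 1)) - Y (c + s (i + 2)))
        have h8 := hS.errpos (Y (c + s (i + 1)))
        set x := ‖Y (c + s (i + 1)) - Y (c + s (i + 2))‖ with hx
        set e := err (Y (c + s (i + 1))) with he
        by_cases h9 : x ≤ 1
        · nlinarith
        · push Not at h9
          have h10 : (x - 1) * (x + 1) ≤ e * (x + 1) := mul_le_mul_of_nonneg_right (by linarith) (by linarith)
          have h11 : e * (x + 1) ≤ e * 2.05 := mul_le_mul_of_nonneg_left (by linarith) h8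
          nlinarith
      refine h1.trans ?_
      rw [← Finset.mul_sum]
      refine mul_le_mul_of_nonneg_left ?_ (by norm_num)
      refine F1a_sum_err hS hLab _ (fun c => c + s (i + 1)) ?_ ?_
      · intro c hc
        rw [Finset.mem_filter] at hc
        exact ⟨F1a_mem hc.1 _, hc.2.1⟩
      · intro c _ c' _ h
        exact add_right_cancel h
    rw [Fin.sum_univ_three]
    have h0 := key 0
    have h1 := key 1
    have h2 := key 2
    linarith
  · have key : ∀ i : Fin 3, ∑ l ∈ (Lam (n + 2)).filter (fun l => l i = 0 ∧ l ∉ Z), uu L n Z Y l i ≤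
        E0 + ((n : ℝ) + 3) * (((n : ℝ) + 2 - L) / 3) := by
      intro i
      have h1 : ∑ l ∈ (Lam (n + 2)).filter (fun l => l i = 0 ∧ l ∉ Z), uu L n Z Y l i ≤
          ∑ l ∈ (Lam (n + 2)).filter (fun l => l i = 0 ∧ l ∉ Z), (err (Y l) + ((n : ℝ) + 2 - L) / 3) := by
        apply Finset.sum_le_sum
        intro l hl
        rw [Finset.mem_filter] at hl
        obtain ⟨hl, h1, h2⟩ := hl
        rw [F1a_uu hl h2, h1]
        have := hLab.wall i l hl h2 h1
        push_cast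
        linarith
      refine h1.trans ?_
      rw [Finset.sum_add_distrib]
      refine add_le_add ?_ ?_
      · refine F1a_sum_err hS hLab _ (fun c => c) ?_ ?_
        · intro c hc
          rw [Finset.mem_filter] at hc
          exact ⟨hc.1, hc.2.2⟩
        · intro c _ c' _ h
          exact h
      · rw [Finset.sum_const, nsmul_eq_mul]
        refine mul_le_mul_of_nonneg_right ?_ (by linarith)
        have h3 : ((Lam (n + 2)).filter (fun l => l i = 0 ∧ l ∉ Z)).card ≤ n + 3 := by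
          refine le_trans (Finset.card_le_card ?_) (F1a_card n i)
          intro l hl
          rw [Finset.mem_filter] at hl ⊢
          exact ⟨hl.1, hl.2.1⟩
        exact_mod_cast h3
    rw [Fin.sum_univ_three]
    have h0 := key 0
    have h1 := key 1
    have h2 := key 2
    nlinarith

/-- a triangle of side `L` contains at most `24 max(L,1)^2` points -/
theorem side_large {L : ℝ} {X : Finset ℂ} (h0 : 0 ≤ L) (hT : ∀ p ∈ X, ∀ i, 0 ≤ H L i p)
    (hsep : ∀ p ∈ X, ∀ p' ∈ X, p ≠ p' → 1 ≤ ‖p - p'‖) : (X.card : ℝ) ≤ 24 * (max L 1) ^ 2 := by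
  classical
  have h3 := sqrt3_pos
  have h3' := sqrt3_lt
  have hbox : ∀ p ∈ X, 0 ≤ p.re ∧ p.re ≤ L ∧ 0 ≤ p.im ∧ p.im ≤ L := by
    intro p hp
    have a0 := hT p hp 0
    have a1 := hT p hp 1
    have a2 := hT p hp 2
    simp only [H, if_true] at a0
    have e1 : H L 1 p = p.re - p.im / √3 := by simp [H]
    have e2 : H L 2 p = L - p.re - p.im / √3 := by simp [H]
    rw [e1] at a1
    rw [e2] at a2
    have b0 : 0 ≤ p.im := by
      have h4 : 0 ≤ 2 * p.im := by
        have := mul_nonneg a0 h3.le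
        rwa [div_mul_cancel₀ _ h3.ne'] at this
      linarith
    have b1 : 0 ≤ p.im / √3 := div_nonneg b0 h3.le
    have b2 : p.im / √3 * √3 = p.im := div_mul_cancel₀ _ h3.ne'
    refine ⟨by linarith, by linarith, b0, ?_⟩
    nlinarith
  set N : ℕ := ⌊2 * L⌋₊ with hN
  have hcard : X.card ≤ ((Finset.range (N + 1)) ×ˢ (Finset.range (N + 1))).card := by
    apply Finset.card_le_card_of_injOn (fun p : ℂ => (⌊2 * p.re⌋₊, ⌊2 * p.im⌋₊))
    · intro p hp
      obtain ⟨b0, b1, b2, b3⟩ := hbox p hp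
      rw [Finset.mem_coe, Finset.mem_product, Finset.mem_range, Finset.mem_range]
      exact ⟨Nat.lt_succ_of_le (Nat.floor_le_floor (by linarith)),
        Nat.lt_succ_of_le (Nat.floor_le_floor (by linarith))⟩
    · intro p hp p' hp' h
      by_contra hne
      have h1 := hsep p hp p' hp' hne
      obtain ⟨b0, b1, b2, b3⟩ := hbox p hp
      obtain ⟨b0', b1', b2', b3'⟩ := hbox p' hp'
      simp only [Prod.mk.injEq] at h
      have f1 := Nat.floor_le (show 0 ≤ 2 * p.re by linarith)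
      have f2 := Nat.lt_floor_add_one (2 * p.re)
      have f3 := Nat.floor_le (show 0 ≤ 2 * p'.re by linarith)
      have f4 := Nat.lt_floor_add_one (2 * p'.re)
      have f5 := Nat.floor_le (show 0 ≤ 2 * p.im by linarith)
      have f6 := Nat.lt_floor_add_one (2 * p.im)
      have f7 := Nat.floor_le (show 0 ≤ 2 * p'.im by linarith)
      have f8 := Nat.lt_floor_add_one (2 * p'.im)
      rw [h.1] at f1 f2
      rw [h.2] at f5 f6
      have g1 : |p.re - p'.re| < 1 / 2 := by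
        rw [abs_lt]
        constructor <;> linarith
      have g2 : |p.im - p'.im| < 1 / 2 := by
        rw [abs_lt]
        constructor <;> linarith
      have g3 : ‖p - p'‖ ≤ |(p - p').re| + |(p - p').im| := Complex.norm_le_abs_re_add_abs_im _
      rw [Complex.sub_re, Complex.sub_im] at g3
      linarith
  rw [Finset.card_product, Finset.card_range] at hcard
  have hNL : (N : ℝ) ≤ 2 * L := Nat.floor_le (by linarith)
  have hM1 : L ≤ max L 1 := le_max_left _ _
  have hM2 : 1 ≤ max L 1 := le_max_right _ _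
  have hc : (X.card : ℝ) ≤ ((N : ℝ) + 1) * (N + 1) := by exact_mod_cast hcard
  have hN0 : (0 : ℝ) ≤ N := by positivity
  have h5 : (N : ℝ) + 1 ≤ 3 * max L 1 := by linarith
  nlinarith

end H24
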