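import Mathlib
import Pool.Agent.Lib_MP_27c196_co.S.Defs

/-! H24, final change of coordinates -/

set_option autoImplicit false

namespace H24

open Finset

theorem main_xy {k m N : ℕ} {E s : ℝ} (hN : 0 < N)
    (h : ∀ (L : ℝ) (X : Finset ℂ), 0 ≤ L → (∀ p ∈ X, ∀ i, 0 ≤ H L i p) →
      (∀ p ∈ X, ∀ p' ∈ X, p ≠ p' → 1 ≤ ‖p - p'‖) → X.card + m = (k + 1) * (k + 2) / 2 → E ≤ L)
    (hNm : N + m = (k + 1) * (k + 2) / 2) (x y : Fin N → ℝ)
    (hT : ∀ i, 0 ≤ y i ∧ y i ≤ √3 * x i ∧ y i ≤ √3 * (s - x i))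
    (hsep : ∀ i j, i ≠ j → 4 ≤ (x i - x j) ^ 2 + (y i - y j) ^ 2) : 2 * E ≤ s := by
  have h3 : 0 < √(3 : ℝ) := Real.sqrt_pos.mpr (by norm_num)
  have h33 : √(3 : ℝ) * √3 = 3 := Real.mul_self_sqrt (by norm_num)
  have hinj : Function.Injective (fun i : Fin N => (⟨x i / 2, y i / 2⟩ : ℂ)) := by
    intro i j hij
    by_contra hne
    have h4 := hsep i j hne
    have e1 : x i / 2 = x j / 2 := congrArg Complex.re hij
    have e2 : y i / 2 = y j / 2 := congrArg Complex.im hij
    have e1' : x i - x j = 0 := by linarith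
    have e2' : y i - y j = 0 := by linarith
    rw [e1', e2'] at h4
    norm_num at h4
  have hs : 0 ≤ s := by
    obtain ⟨h0, h1, h2⟩ := hT ⟨0, hN⟩
    have hx : 0 ≤ x ⟨0, hN⟩ := by
      by_contra hcon
      push Not at hcon
      nlinarith
    have hx' : 0 ≤ s - x ⟨0, hN⟩ := by
      by_contra hcon
      push Not at hcon
      nlinarith
    linarith
  have key := h (s / 2) (Finset.univ.image (fun i : Fin N => (⟨x i / 2, y i / 2⟩ : ℂ)))
    (by linarith) ?_ ?_ ?_
  · linarith
  · intro p hp i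
    rw [Finset.mem_image] at hp
    obtain ⟨a, -, rfl⟩ := hp
    obtain ⟨h0, h1, h2⟩ := hT a
    have e : y a / 2 / √3 = y a * √3 / 6 := by
      field_simp
      nlinarith
    have e1 : y a * √3 ≤ 3 * x a := by nlinarith
    have e2 : y a * √3 ≤ 3 * (s - x a) := by nlinarith
    fin_cases i
    · simp [H]
      positivity
    · simp only [H, Fin.mk_one, one_ne_zero, ↓reduceIte]
      rw [e]
      linarith
    · simp only [H, Fin.reduceFinMk, Fin.reduceEq, ↓reduceIte]
      rw [e]
      linarith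
  · intro p hp p' hp' hne
    rw [Finset.mem_image] at hp hp'
    obtain ⟨a, -, rfl⟩ := hp
    obtain ⟨b, -, rfl⟩ := hp'
    have hab : a ≠ b := by
      rintro rfl
      exact hne rfl
    have h4 := hsep a b hab
    rw [← Real.sqrt_one, Complex.norm_def]
    apply Real.sqrt_le_sqrt
    rw [Complex.normSq_apply]
    simp only [Complex.sub_re, Complex.sub_im]
    nlinarith
  · rw [Finset.card_image_of_injective _ hinj, Finset.card_univ, Fintype.card_fin]
    exact hNm

end H24
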