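import Pool.Agent.Lib_MP_27c196_co.F.F1a
import Pool.Agent.Lib_MP_27c196_co.V.Q13

/-! H24, assembly: main theorem in the coordinates of part S, exponential rate (proof of helper78 in F1 with theoremR2) -/

set_option linter.unusedVariables false

noncomputable section

namespace H24

open Finset

/-- the defect in terms of `k` -/
private lemma F3_def_eq {k m : ℕ} {L : ℝ} {X : Finset ℂ} (hX : X.card + m = (k + 1) * (k + 2) / 2) :
    Def L X = √3 / 4 * ((L + 3 / 2) ^ 2 - (k + 3 / 2) ^ 2 + 1 / 4 + 2 * m) := by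
  have hX2 : 2 * ((X.card : ℝ) + m) = (k + 1) * (k + 2) := by
    have h2 : 2 * (X.card + m) = (k + 1) * (k + 2) := by
      rw [hX]
      apply Nat.mul_div_cancel'
      have := Nat.even_mul_succ_self (k + 1)
      exact this.two_dvd
    exact_mod_cast h2
  have hc : (X.card : ℝ) = (k + 1) * (k + 2) / 2 - m := by linarith
  unfold Def
  rw [hc]
  ring

private lemma F3_def_le {k m : ℕ} {L : ℝ} {X : Finset ℂ} (hX : X.card + m = (k + 1) * (k + 2) / 2) (h0 : 0 ≤ L)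
    (hL : L ≤ k) : Def L X ≤ m + 1 := by
  rw [F3_def_eq hX]
  have h3 := sqrt3_pos
  have h4 := sqrt3_lt
  have hm : (0 : ℝ) ≤ m := by positivity
  have h5 : (L + 3 / 2) ^ 2 ≤ ((k : ℝ) + 3 / 2) ^ 2 := pow_le_pow_left₀ (by linarith) (by linarith) 2
  have h6 : √3 / 4 * ((L + 3 / 2) ^ 2 - (k + 3 / 2) ^ 2 + 1 / 4 + 2 * m) ≤ √3 / 4 * (1 / 4 + 2 * m) :=
    mul_le_mul_of_nonneg_left (by linarith) (by positivity)
  have h7 : √3 / 4 * (1 / 4 + 2 * (m : ℝ)) ≤ 1 / 2 * (1 / 4 + 2 * m) :=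
    mul_le_mul_of_nonneg_right (by linarith) (by positivity)
  linarith

private lemma F3_gap {k m : ℕ} {L : ℝ} {X : Finset ℂ} (hX : X.card + m = (k + 1) * (k + 2) / 2) (h0 : 0 ≤ L)
    (hL : L ≤ k) (hD : -1600 ≤ Def L X) : ((k : ℝ) + 1) * (k - L) ≤ 4000 + 2 * m := by
  rw [F3_def_eq hX] at hD
  have h3 := sqrt3_gt
  have hk : (0 : ℝ) ≤ k := by positivity
  have h5 : -3900 ≤ (L + 3 / 2) ^ 2 - ((k : ℝ) + 3 / 2) ^ 2 + 1 / 4 + 2 * m := by
    by_contra hcon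
    push Not at hcon
    have h6 : √3 / 4 * ((L + 3 / 2) ^ 2 - ((k : ℝ) + 3 / 2) ^ 2 + 1 / 4 + 2 * m) ≤ √3 / 4 * (-3900) :=
      mul_le_mul_of_nonneg_left hcon.le (by positivity)
    linarith
  have h7 : ((k : ℝ) + 3 / 2) ^ 2 - (L + 3 / 2) ^ 2 = (k - L) * (k + L + 3) := by ring
  have h8 : ((k : ℝ) + 1) * (k - L) ≤ (k - L) * (k + L + 3) := by
    rw [mul_comm]
    exact mul_le_mul_of_nonneg_left (by linarith) (by linarith)
  linarith

/-- MAIN THEOREM, exponential rate. -/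
theorem main_HE (m : ℕ) : ∃ c : ℝ, 0 < c ∧ ∃ k0 : ℕ, ∀ k ≥ k0, ∀ (L : ℝ) (X : Finset ℂ), 0 ≤ L → (∀ p ∈ X, ∀ i, 0 ≤ H L i p) →
    (∀ p ∈ X, ∀ p' ∈ X, p ≠ p' → 1 ≤ ‖p - p'‖) → X.card + m = (k + 1) * (k + 2) / 2 →
    (k : ℝ) - Real.exp (-(c * k)) ≤ L := by
  obtain ⟨E0, R0, hE0, hR0, hE⟩ := theoremE ((m : ℝ) + 1)
  obtain ⟨Z0, n0, hS⟩ := theoremS E0 (1 / 1000) R0 hE0 (by norm_num) hR0 m
  obtain ⟨c, hc0, n1, hR⟩ := theoremR2 (10 * E0 + (4000 + 2 * m)) Z0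
  refine ⟨c, hc0, n0 + n1 + 2 + (4000 + 2 * m) + ⌈48 * (R0 + 20) ^ 2 + 2 * m + 1⌉₊, ?_⟩
  intro k hk L X h0 hT hsep hX
  by_cases hLk : (k : ℝ) ≤ L
  · have := Real.exp_pos (-(c * (k : ℝ)))
    linarith
  push Not at hLk
  have hLk' : L ≤ k := hLk.le
  have hm : (0 : ℝ) ≤ m := by positivity
  have hkr : (4000 : ℝ) + 2 * m + 2 ≤ k := by
    have : 4000 + 2 * m + 2 ≤ k := by omega
    exact_mod_cast this
  have hkc : 48 * (R0 + 20) ^ 2 + 2 * m + 1 ≤ (k : ℝ) := by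
    refine le_trans (Nat.le_ceil _) ?_
    have : ⌈48 * (R0 + 20) ^ 2 + 2 * (m : ℝ) + 1⌉₊ ≤ k := by omega
    exact_mod_cast this
  have hX2 : 2 * ((X.card : ℝ) + m) = (k + 1) * (k + 2) := by
    have h2 : 2 * (X.card + m) = (k + 1) * (k + 2) := by
      rw [hX]
      apply Nat.mul_div_cancel'
      have := Nat.even_mul_succ_self (k + 1)
      exact this.two_dvd
    exact_mod_cast h2
  have hbig : R0 + 20 ≤ L := by
    by_contra hcon
    push Not at hcon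
    have h1 := side_large h0 hT hsep
    have h2 : max L 1 ≤ R0 + 20 := max_le hcon.le (by linarith)
    have h3 : (0 : ℝ) ≤ max L 1 := le_trans (by norm_num) (le_max_right _ _)
    have h4 : (max L 1) ^ 2 ≤ (R0 + 20) ^ 2 := pow_le_pow_left₀ h3 h2 2
    have h5 : (k : ℝ) ≤ (k + 1) * (k + 2) := by nlinarith
    linarith
  have hC : Conf L X := ⟨by linarith, hT, hsep⟩
  obtain ⟨err, hSD⟩ := hE L X hC (by linarith) (F3_def_le hX h0 hLk')
  have hgap := F3_gap hX h0 hLk' (Def_ge hC)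
  have hL1 : (k : ℝ) - L ≤ 1 := by
    by_contra hcon
    push Not at hcon
    have h1 : ((k : ℝ) + 1) * 1 < (k + 1) * (k - L) := mul_lt_mul_of_pos_left hcon (by linarith)
    linarith
  obtain ⟨n, rfl⟩ : ∃ n, k = n + 2 := ⟨k - 2, by omega⟩
  push_cast at hgap hL1 hLk' hLk ⊢
  have hXn : X.card + m = (n + 3) * (n + 4) / 2 := by rw [hX]
  obtain ⟨Z, Y, hZ, hLab⟩ := hS n (by omega) L X err hSD (by linarith) hLk' hXn
  have hRD := rdata_of_lab hSD hLab hLk' (C := 4000 + 2 * m) (by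
    have e : ((n : ℝ) + 2 + 1) = n + 3 := by ring
    rw [e] at hgap
    exact hgap)
  have := hR n (by omega) Z _ _ hRD hZ
  linarith

end H24
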